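import Pool.Agent.H44.QEX.Defs
import Pool.Agent.H44.QEX.Main

/-!
# Ratio of quadrangulation counts in consecutive high genera: existence and value of the limit

`Q n g` is the number of isomorphism classes of rooted bipartite quadrangulations of genus `g` with
`n` faces, `T s = √(12 s (s + 2)) / (1 - s ^ 2)`.
-/

set_option autoImplicit false

open Filter Topology Pool.H44.QEX

namespace Pool.Agent.Results.MP_72bf75_co.ExplicitRatio

/-- For every `θ` in `(0, 1/2)` there is exactly one `s` in `(0, 1)` with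
`θ T(s) = ∫_0^s v T(v) / (1 - v ^ 2) dv`, and for every genus sequence with parameter `θ` the ratio
`Q(n, g_n) / (n ^ 2 Q(n, g_n - 1))` tends to `1 / T(s) ^ 2`. -/
theorem result (θ : ℝ) (h0 : 0 < θ) (h1 : θ < 1 / 2) :
    (∃! s : ℝ, 0 < s ∧ s < 1 ∧ θ * T s = ∫ v in (0 : ℝ)..s, v * T v / (1 - v ^ 2)) ∧
    ∀ s : ℝ, 0 < s → s < 1 → θ * T s = ∫ v in (0 : ℝ)..s, v * T v / (1 - v ^ 2) →
      ∀ g : ℕ → ℕ, Tendsto (fun n : ℕ => (g n : ℝ) / n) atTop (𝓝 θ) →
        Tendsto (fun n : ℕ => (Q n (g n) : ℝ) / ((n : ℝ) ^ 2 * (Q n (g n - 1) : ℝ))) atTop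
          (𝓝 (1 / T s ^ 2)) :=
  main θ h0 h1

end Pool.Agent.Results.MP_72bf75_co.ExplicitRatio
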